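import Pool.Agent.Lib.MP_a48542_co.Final

set_option autoImplicit false

namespace Pool.Agent.Results.MP_a48542_co.Arcs

open Pool.Agent.Lib.MP_a48542_co

/-- For all large `n` there are `n` circular arcs whose lower envelope has at least `c n 2 ^ α(n)`
breakpoints. -/
theorem result : ∃ c : ℝ, 0 < c ∧ ∃ n₀ : ℕ, ∀ n : ℕ, n₀ ≤ n →
    ∃ Γ : Finset (Set (ℝ × ℝ)), Γ.card = n ∧ (∀ γ ∈ Γ, IsArc γ) ∧
      ∃ S : Finset ℝ, (∀ x ∈ S, IsBreak Γ x) ∧ c * n * 2 ^ alpha n ≤ S.card :=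
  main cls_CP rea_CP

end Pool.Agent.Results.MP_a48542_co.Arcs
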